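import Mathlib

/-!
# An obstruction against a parity operator on the reduction of a pair of modules

Let `M` be a finitely generated module over a local ring `W` with residue field `k` and `p ∈ W`, and
suppose that `M / p M` is contained in a vector space `V₀` and that `M[p]` is a quotient of a vector
space `V₁`. If an endomorphism of this situation acts on `V₀` and on `V₁` by different scalars then
`M` has no `p`-torsion.
-/

set_option autoImplicit false

namespace Pool.Agent.U586.CN

universe u v w x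

section

variable {W : Type u} [CommRing W] {M : Type v} [AddCommGroup M] [Module W M] (p : W)

/-- The `p`-power torsion of a noetherian module is killed by a power of `p`; a minimal exponent. -/
lemma exists_exponent [IsNoetherian W M] :
    ∃ n : ℕ, ∀ y : M, (∃ m : ℕ, p ^ m • y = 0) → p ^ n • y = 0 := by
  have hmono : Monotone fun n : ℕ => LinearMap.ker (LinearMap.lsmul W M (p ^ n)) := by
    intro a b hab y hy
    rw [LinearMap.mem_ker, LinearMap.lsmul_apply] at hy ⊢
    obtain ⟨c, rfl⟩ := Nat.exists_eq_add_of_le hab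
    rw [pow_add, mul_comm, mul_smul, hy, smul_zero]
  obtain ⟨n, hn⟩ := monotone_stabilizes_iff_noetherian.mpr ‹IsNoetherian W M› ⟨_, hmono⟩
  refine ⟨n, fun y ⟨m, hm⟩ => ?_⟩
  have h1 : y ∈ LinearMap.ker (LinearMap.lsmul W M (p ^ (max m n))) := by
    rw [LinearMap.mem_ker, LinearMap.lsmul_apply]
    obtain ⟨c, hc⟩ := Nat.exists_eq_add_of_le (le_max_left m n)
    rw [hc, pow_add, mul_comm, mul_smul, hm, smul_zero]
  have h2 := hn (max m n) (le_max_right m n)
  simp only [OrderHom.coe_mk] at h2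
  rw [← h2, LinearMap.mem_ker, LinearMap.lsmul_apply] at h1
  exact h1

/-- The main lemma. -/
theorem no_torsion {k : Type w} [Field k] [IsNoetherian W M] {V₀ V₁ : Type x} [AddCommGroup V₀]
    [Module k V₀] [AddCommGroup V₁] [Module k V₁] (c : W →+* k) (hc : ∀ w, c w ≠ 0 → IsUnit w)
    (ρ : M →+ V₀) (δ : V₁ →+ M) (hρ : ∀ (w : W) (x : M), ρ (w • x) = c w • ρ x)
    (hδ : ∀ (w : W) (v : V₁), δ (c w • v) = w • δ v)
    (hker : ∀ x, ρ x = 0 → ∃ y, x = p • y) (him : ∀ x, p • x = 0 → ∃ v, δ v = x)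
    (F : M →+ M) (F₀ : V₀ → V₀) (F₁ : V₁ → V₁) (hF : ∀ (w : W) (x : M), F (w • x) = w • F x)
    (h₀ : ∀ x, ρ (F x) = F₀ (ρ x)) (h₁ : ∀ v, δ (F₁ v) = F (δ v)) (a b : W)
    (ha : ∀ v, F₀ v = c a • v) (hb : ∀ v, F₁ v = c b • v) (hab : c a ≠ c b) (x : M)
    (hx : p • x = 0) : x = 0 := by
  classical
  have hex := exists_exponent (M := M) p
  by_contra hx0
  obtain ⟨m, hm⟩ : ∃ m, Nat.find hex = m + 1 := by
    refine ⟨Nat.find hex - 1, ?_⟩
    have h0 : Nat.find hex ≠ 0 := by
      intro h
      have h1 := Nat.find_spec hex x ⟨1, by rwa [pow_one]⟩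
      rw [h, pow_zero, one_smul] at h1
      exact hx0 h1
    omega
  have hmin : ¬ ∀ y : M, (∃ m : ℕ, p ^ m • y = 0) → p ^ m • y = 0 :=
    Nat.find_min hex (by omega)
  push Not at hmin
  obtain ⟨y, hy, hy0⟩ := hmin
  have hspec := Nat.find_spec hex
  rw [hm] at hspec
  have hy1 : p • (p ^ m • y) = 0 := by
    rw [smul_smul, ← pow_succ']
    exact hspec y hy
  -- the action on `p ^ m • y` through `V₁`
  have hb1 : F (p ^ m • y) = b • (p ^ m • y) := by
    obtain ⟨v, hv⟩ := him _ hy1
    rw [← hv, ← h₁, hb, hδ]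
  -- the action through `V₀`
  have ha1 : F (p ^ m • y) = a • (p ^ m • y) := by
    have h2 : ρ (F y - a • y) = 0 := by
      rw [map_sub, h₀, ha, hρ, sub_self]
    obtain ⟨z, hz⟩ := hker _ h2
    have h3 : p ^ (m + 1) • z = 0 := by
      refine hspec z ⟨m + 2, ?_⟩
      have h4 : p ^ (m + 1) • (F y - a • y) = 0 := by
        rw [smul_sub, ← hF, smul_comm, hspec y hy, smul_zero, map_zero, sub_zero]
      rw [hz, smul_smul, ← pow_succ] at h4
      exact h4
    have h5 : p ^ m • (F y - a • y) = 0 := by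
      rw [hz, smul_smul, ← pow_succ, h3]
    rw [smul_sub, ← hF, smul_comm] at h5
    rw [sub_eq_zero] at h5
    exact h5
  have h6 : (a - b) • (p ^ m • y) = 0 := by
    rw [sub_smul, ← ha1, ← hb1, sub_self]
  have h7 : IsUnit (a - b) := hc _ (by rw [map_sub]; exact sub_ne_zero.2 hab)
  exact hy0 ((h7.smul_eq_zero).1 h6)

end

end Pool.Agent.U586.CN
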