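import Pool.Agent.U586.CN.Core

/-!
# Dimension of the reduction of a torsion-free module
-/

set_option autoImplicit false

namespace Pool.Agent.U586.CN

universe u v w x

open Module

section

variable {W : Type u} [CommRing W] {M : Type v} [AddCommGroup M] [Module W M] {p : W}
  {k : Type w} [Field k] {V : Type x} [AddCommGroup V] [Module k V]

/-- The reduction of a basis is a basis. -/
theorem finrank_reduction [Nontrivial W] [Module.Free W M] [Module.Finite W M] (c : W →+* k)
    (hsurj : Function.Surjective c) (hc : ∀ w, c w = 0 ↔ ∃ w', w = p * w') (ρ : M →+ V)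
    (hρ : ∀ (w : W) (x : M), ρ (w • x) = c w • ρ x) (hker : ∀ x, ρ x = 0 ↔ ∃ y, x = p • y)
    (hs : Function.Surjective ρ) : finrank k V = finrank W M := by
  classical
  let b := Module.Free.chooseBasis W M
  have hli : LinearIndependent k fun i => ρ (b i) := by
    rw [Fintype.linearIndependent_iff]
    intro g hg i
    choose s hs' using hsurj
    have h1 : ρ (∑ i, s (g i) • b i) = 0 := by
      rw [map_sum, ← hg]
      exact Finset.sum_congr rfl fun i _ => by rw [hρ, hs']
    obtain ⟨y, hy⟩ := (hker _).1 h1
    have h2 : s (g i) = p * b.repr y i := by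
      have h3 := congrArg (fun z => b.repr z i) hy
      simp only [map_smul, Finsupp.smul_apply, smul_eq_mul] at h3
      rw [← h3, Module.Basis.repr_sum_self]
    rw [← hs' (g i)]
    exact (hc _).2 ⟨_, h2⟩
  have hsp : ⊤ ≤ Submodule.span k (Set.range fun i => ρ (b i)) := by
    intro v _
    obtain ⟨x, rfl⟩ := hs v
    rw [← b.sum_repr x, map_sum]
    refine Submodule.sum_mem _ fun i _ => ?_
    rw [hρ]
    exact Submodule.smul_mem _ _ (Submodule.subset_span ⟨i, rfl⟩)
  rw [finrank_eq_card_basis (Basis.mk hli hsp), finrank_eq_card_basis b]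

end

end Pool.Agent.U586.CN
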